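import Mathlib
import Pool.Agent.Lib_helper73.Rigid.Spatial

set_option autoImplicit false

open Set

namespace Pool.Agent.Results.MP_7fe07c_an.RigidAffine

/-- Euclidean three-space. -/
abbrev E3 : Type := EuclideanSpace ℝ (Fin 3)

/-- The graph `{(x, y, f (x, y))}` as a subset of Euclidean three-space. -/
def graph (f : ℝ × ℝ → ℝ) : Set E3 := {v | v 2 = f (v 0, v 1)}

/-- `f` is horizontally rigid for `C`: for every `c ∈ C` some isometry of Euclidean three-space
maps the graph of `f` onto the graph of `f (c ·)`. -/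
def HorizontallyRigid (C : Set ℝ) (f : ℝ × ℝ → ℝ) : Prop :=
  ∀ c ∈ C, ∃ φ : E3 → E3, Isometry φ ∧ φ '' graph f = graph (fun p => f (c * p.1, c * p.2))

/-- `f` is affine. -/
def IsAffine (f : ℝ × ℝ → ℝ) : Prop :=
  ∃ a b d : ℝ, ∀ x y : ℝ, f (x, y) = a + b * x + d * y

/-- (a) `C` is uncountable. -/
def HypA (C : Set ℝ) : Prop := ¬ C.Countable

/-- (b) `C` generates a dense subgroup of the multiplicative group of positive reals. -/
def HypB (C : Set ℝ) : Prop :=
  Dense ((Subgroup.closure {u : {x : ℝ // 0 < x} | (u : ℝ) ∈ C} : Subgroup {x : ℝ // 0 < x}) :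
    Set {x : ℝ // 0 < x})

/-- (c) `C` has at least two elements different from `1`. -/
def HypC (C : Set ℝ) : Prop := ∃ c₁ ∈ C, ∃ c₂ ∈ C, c₁ ≠ 1 ∧ c₂ ≠ 1 ∧ c₁ ≠ c₂

/-! ### (a) and (b) imply (c) -/

theorem small_of_not_hypC {C : Set ℝ} (hC : C ⊆ Ioi 0) (h : ¬ HypC C) :
    ∃ c : ℝ, 1 < c ∧ ∀ x ∈ C, x = 1 ∨ x = c ∨ x = c⁻¹ := by
  by_cases h1 : ∃ c₁ ∈ C, c₁ ≠ 1
  · obtain ⟨c₁, hc₁, hne⟩ := h1
    have hpos : 0 < c₁ := hC hc₁
    have hall : ∀ x ∈ C, x = 1 ∨ x = c₁ := by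
      intro x hx
      by_contra hcon
      push Not at hcon
      exact h ⟨c₁, hc₁, x, hx, hne, hcon.1, hcon.2.symm⟩
    rcases lt_or_gt_of_ne hne with hlt | hgt
    · refine ⟨c₁⁻¹, (one_lt_inv₀ hpos).2 hlt, fun x hx => ?_⟩
      rcases hall x hx with h2 | h2
      · exact Or.inl h2
      · exact Or.inr (Or.inr (by rw [inv_inv]; exact h2))
    · refine ⟨c₁, hgt, fun x hx => ?_⟩
      rcases hall x hx with h2 | h2
      · exact Or.inl h2
      · exact Or.inr (Or.inl h2)
  · push Not at h1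
    exact ⟨2, by norm_num, fun x hx => Or.inl (h1 x hx)⟩

theorem hypC_of_hypA {C : Set ℝ} (hC : C ⊆ Ioi 0) (h : HypA C) : HypC C := by
  by_contra hcon
  obtain ⟨c, -, hc⟩ := small_of_not_hypC hC hcon
  apply h
  have hsub : C ⊆ {1, c, c⁻¹} := by
    intro x hx
    simpa using hc x hx
  exact (Set.toFinite _).countable.mono hsub

theorem hypC_of_hypB {C : Set ℝ} (hC : C ⊆ Ioi 0) (h : HypB C) : HypC C := by
  by_contra hcon
  obtain ⟨c, hc1, hc⟩ := small_of_not_hypC hC hcon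
  have hc0 : 0 < c := by linarith
  set g : {x : ℝ // 0 < x} := ⟨c, hc0⟩ with hg
  have hle : Subgroup.closure {u : {x : ℝ // 0 < x} | (u : ℝ) ∈ C} ≤ Subgroup.zpowers g := by
    rw [Subgroup.closure_le]
    intro u hu
    rcases hc u hu with h1 | h1 | h1
    · have : u = 1 := Subtype.ext h1
      rw [this]; exact Subgroup.one_mem _
    · have : u = g := Subtype.ext h1
      rw [this]; exact Subgroup.mem_zpowers g
    · have : u = g⁻¹ := Subtype.ext (by rw [h1]; rfl)
      rw [this]; exact Subgroup.inv_mem _ (Subgroup.mem_zpowers g)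
  have hopen : IsOpen {u : {x : ℝ // 0 < x} | 1 < (u : ℝ) ∧ (u : ℝ) < c} :=
    (isOpen_lt continuous_const continuous_subtype_val).inter
      (isOpen_lt continuous_subtype_val continuous_const)
  obtain ⟨u, hu, hu2⟩ := h.inter_open_nonempty _ hopen
    ⟨⟨(1 + c) / 2, by linarith⟩, by
      constructor
      · show 1 < (1 + c) / 2; linarith
      · show (1 + c) / 2 < c; linarith⟩
  obtain ⟨n, hn⟩ := Subgroup.mem_zpowers_iff.1 (hle hu2)
  have hval : (u : ℝ) = c ^ n := by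
    rw [← hn]
    cases n with
    | ofNat k => simp [hg]
    | negSucc k => simp [hg, zpow_negSucc]
  rw [mem_ofPred_eq, hval] at hu
  rcases le_or_gt n 0 with h0 | h0
  · have := zpow_le_one_of_nonpos₀ hc1.le h0
    linarith [hu.1]
  · have h2 : c ^ (1 : ℤ) ≤ c ^ n := zpow_le_zpow_right₀ hc1.le h0
    rw [zpow_one] at h2
    linarith [hu.2]

/-! ### From isometries of Euclidean space to symmetries in coordinates -/

open Rigid

/-- coordinates -/
noncomputable def J : W ≃ₗ[ℝ] E3 where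
  toFun v := WithLp.toLp 2 ![v.1.1, v.1.2, v.2]
  invFun x := ((x 0, x 1), x 2)
  map_add' v w := by
    ext i; fin_cases i <;> simp
  map_smul' a v := by
    ext i; fin_cases i <;> simp
  left_inv v := by ext <;> simp
  right_inv x := by
    ext i; fin_cases i <;> simp

theorem J_norm (v : W) : ‖J v‖ ^ 2 = Q v := by
  rw [EuclideanSpace.real_norm_sq_eq]
  simp [J, Fin.sum_univ_three, Q]

theorem J_mem (f : ℝ × ℝ → ℝ) (v : W) : J v ∈ graph f ↔ v ∈ Gr f := by
  simp [J, graph, Gr]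

/-- scaling as a linear equivalence -/
noncomputable def MscE {c : ℝ} (hc : c ≠ 0) : W ≃ₗ[ℝ] W where
  toFun := Msc c
  invFun := Msc c⁻¹
  map_add' := Msc_add c
  map_smul' := Msc_smul c
  left_inv := Msc_inv' hc
  right_inv := Msc_inv hc

theorem exists_sym {f : ℝ × ℝ → ℝ} {c : ℝ} (hc : 0 < c) {φ : E3 → E3} (hφ : Isometry φ)
    (h : φ '' graph f = graph (fun p => f (c * p.1, c * p.2))) :
    ∃ (T : W ≃ᵃ[ℝ] W) (R : W ≃ₗ[ℝ] W), Sym f c T R := by
  set A := hφ.affineIsometryOfStrictConvexSpace with hA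
  have hAφ : ∀ x, A x = φ x := fun x => rfl
  set L : E3 ≃ₗᵢ[ℝ] E3 := A.linearIsometry.toLinearIsometryEquiv rfl with hL
  set b := φ 0 with hb
  have hφL : ∀ x, φ x = L x + b := by
    intro x
    have h1 := A.map_vadd 0 x
    simp only [vadd_eq_add, add_zero] at h1
    rw [hAφ, hAφ] at h1
    exact h1
  set R : W ≃ₗ[ℝ] W := (J.trans L.symm.toLinearEquiv).trans J.symm with hR
  have hRv : ∀ v, J (R v) = L.symm (J v) := by
    intro v
    simp [hR]
  have hRiso : IsoQ R := by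
    intro v
    rw [← J_norm, ← J_norm, hRv, LinearIsometryEquiv.norm_map]
  set T : W ≃ᵃ[ℝ] W := ((MscE hc.ne').trans R).toAffineEquiv.trans
    (AffineEquiv.constVAdd ℝ W (-(R (J.symm b)))) with hT
  refine ⟨T, R, ?_, hRiso, fun v => rfl⟩
  intro v
  have hTv : T v = -(R (J.symm b)) + R (Msc c v) := rfl
  have h1 : φ (J (T v)) = J (Msc c v) := by
    rw [hφL, hTv, map_add, map_neg, hRv, hRv, map_add, map_neg]
    simp
  have h2 : J (T v) ∈ graph f ↔ J (Msc c v) ∈ graph (fun p => f (c * p.1, c * p.2)) := by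
    rw [← h, ← h1]
    exact (hφ.injective.mem_set_image).symm
  rw [← J_mem, h2, J_mem, mem_Gr, mem_Gr]
  have h3 : ((c * (Msc c v).1.1, c * (Msc c v).1.2) : ℝ × ℝ) = v.1 := by
    ext
    · simp [Msc]; field_simp
    · simp [Msc]; field_simp
  show (Msc c v).2 = f (c * (Msc c v).1.1, c * (Msc c v).1.2) ↔ _
  rw [h3]
  exact Iff.rfl

/-- **Full positive answer to Q1 of MP_7fe07c_an.**  Let `C ⊆ (0, ∞)` satisfy (a) `C` is
uncountable, or (b) `C` generates a dense subgroup of `(0, ∞)`, or (c) `C` has at least two elements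
different from `1`.  Then every continuous `f : ℝ² → ℝ` that is horizontally rigid for `C` is
affine. -/
theorem result (C : Set ℝ) (hC : C ⊆ Ioi 0) (h : HypA C ∨ HypB C ∨ HypC C)
    (f : ℝ × ℝ → ℝ) (hf : Continuous f) (hr : HorizontallyRigid C f) : IsAffine f := by
  have hc : HypC C := by
    rcases h with h | h | h
    · exact hypC_of_hypA hC h
    · exact hypC_of_hypB hC h
    · exact h
  obtain ⟨c₁, h1, c₂, h2, n1, n2, n12⟩ := hc
  obtain ⟨φ₁, i1, e1⟩ := hr c₁ h1
  obtain ⟨φ₂, i2, e2⟩ := hr c₂ h2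
  obtain ⟨T1, R1, s1⟩ := exists_sym (hC h1) i1 e1
  obtain ⟨T2, R2, s2⟩ := exists_sym (hC h2) i2 e2
  exact main_coord hf (hC h1) (hC h2) n1 n2 n12 s1 s2

end Pool.Agent.Results.MP_7fe07c_an.RigidAffine
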